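import Mathlib
import Pool.Agent.H13R3.EM.Defs
import Pool.Agent.Y937.PG.All

/-!
# MP_a10c55_nt, Q1: products of `k` error terms of the Selberg class need not take large values of either sign

`Sel` (module `Pool.Agent.H13R3.EM.Defs`) is the structure of an element of the Selberg class with all its data,
`Sel.deg` its degree and `Sel.err` its error term `E_f(x)`.  The result `ProductBounded` of this repository disproves
Q1 by one pair of elements, of degrees `8 q` and `16 q` for one unspecified `q`, whose product of error terms is bounded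
below.  Here: there is `D` such that for EVERY `k ≥ 2`, ALL degrees `d_1, ..., d_k ≥ D` divisible by `8` and EACH of the
two signs there are entire elements `F_1, ..., F_k` of the Selberg class with real coefficients and these degrees such
that the product of the error terms is bounded below (bounded above) on the whole real line.
-/

set_option autoImplicit false

namespace Pool.Agent.Results.MP_a10c55_nt.EveryKLargeDegrees

open Pool.Agent.H13R3.EM (Sel)

/-- The assertion of Q1 for the degrees `d` and the elements `F` of the Selberg class: there are `δ` in `(0, 1)` and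
`c > 0` such that for all large `T` the product `P(x) = ∏ E_{f_j}(x)` takes on `[T, T + T^δ]` a value `> c T^σ` and a
value `< -c T^σ`, `σ = ∑ (d_j - 1) / (2 d_j)`. -/
def Q1For {k : ℕ} (d : Fin k → ℕ) (F : Fin k → Sel) : Prop :=
  ∃ δ c T₀ : ℝ, 0 < δ ∧ δ < 1 ∧ 0 < c ∧ ∀ T : ℝ, T₀ ≤ T →
    ∃ x₁ ∈ Set.Icc T (T + T ^ δ), ∃ x₂ ∈ Set.Icc T (T + T ^ δ),
      c * T ^ (∑ j, ((d j : ℝ) - 1) / (2 * (d j : ℝ))) < (∏ j, (F j).err x₁).re ∧
      (∏ j, (F j).err x₂).re < -(c * T ^ (∑ j, ((d j : ℝ) - 1) / (2 * (d j : ℝ))))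

/-- There is `D` such that for every `k ≥ 2`, all `d_1, ..., d_k ≥ D` divisible by `8` and each sign `e = 1, -1` there
are entire elements `F_1, ..., F_k` of the Selberg class with real coefficients, of degrees `d_1, ..., d_k`, such that
`e * E_{f_1}(x) ... E_{f_k}(x) ≥ -C` for all real `x`; in particular the assertion of Q1 is false for them. -/
theorem result : ∃ D : ℕ, ∀ k : ℕ, 2 ≤ k → ∀ d : Fin k → ℕ, (∀ j, 8 ∣ d j ∧ D ≤ d j) →
    ∀ e : ℝ, (e = 1 ∨ e = -1) → ∃ F : Fin k → Sel,
      (∀ j, (F j).deg = (d j : ℝ) ∧ (F j).m0 = 0 ∧ (∀ n : ℕ, 1 ≤ n → ((F j).a n).im = 0) ∧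
        ∀ x : ℝ, ((F j).err x).im = 0) ∧
      (∃ C : ℝ, ∀ x : ℝ, -C ≤ e * (∏ j, (F j).err x).re) ∧ ¬ Q1For d F := by
  obtain ⟨q₀, h⟩ := Pool.Agent.Y937.PG.strongG
  refine ⟨max (8 * q₀) 2, fun k hk d hd e he => ?_⟩
  have hd2 : ∀ j, 2 ≤ d j := fun j => (le_max_right _ _).trans (hd j).2
  obtain ⟨F, hF, hP⟩ := h k hk (fun j => d j / 8)
    (fun j => by have h1 := (hd j).2; have h2 := le_max_left (8 * q₀) 2; omega) e he
  refine ⟨F, fun j => ⟨?_, (hF j).2⟩, hP, ?_⟩
  · rw [(hF j).1, Nat.mul_div_cancel' (hd j).1]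
  · exact Pool.Agent.Y937.PG.End.not_both (P := fun x => (∏ j, (F j).err x).re) hk hd2 he hP

end Pool.Agent.Results.MP_a10c55_nt.EveryKLargeDegrees
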